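import Pool.Agent.H800R2.Front

set_option autoImplicit false

open Set Filter Topology

namespace Pool.Agent.K6.H41.Trap

open Pool.Agent.H800R2
open scoped RealInnerProductSpace ContDiff

/-- half height of the section of the ellipsoid -/
noncomputable def w (r : ℝ) : ℝ := √(1 - r / 2)

/-- smooth cutoff, `1` for `r ≤ 5/4` and `0` for `r ≥ 3/2` -/
noncomputable def chi (r : ℝ) : ℝ := Real.smoothTransition (6 - 4 * r)

/-- the square of the height of the inner wall -/
noncomputable def q (r : ℝ) : ℝ := (1 - chi r) * (1 - w r) ^ 2 + chi r * (1 - 2 * (r - 1) ^ 2)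

theorem chi_one {r : ℝ} (h : r ≤ 5 / 4) : chi r = 1 :=
  Real.smoothTransition.one_of_one_le (by linarith)

theorem chi_zero {r : ℝ} (h : 3 / 2 ≤ r) : chi r = 0 :=
  Real.smoothTransition.zero_of_nonpos (by linarith)

theorem chi_nonneg (r : ℝ) : 0 ≤ chi r := Real.smoothTransition.nonneg _

theorem chi_le_one (r : ℝ) : chi r ≤ 1 := Real.smoothTransition.le_one _

theorem w_nonneg (r : ℝ) : 0 ≤ w r := Real.sqrt_nonneg _

theorem w_pos {r : ℝ} (h : r < 2) : 0 < w r := Real.sqrt_pos.2 (by linarith)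

theorem w_le_one {r : ℝ} (h : 0 ≤ r) : w r ≤ 1 := by
  unfold w
  rw [Real.sqrt_le_left (by norm_num)]
  linarith

theorem w_lt_one {r : ℝ} (h : 0 < r) : w r < 1 := by
  unfold w
  rw [Real.sqrt_lt' one_pos]
  linarith

theorem w_sq {r : ℝ} (h : r ≤ 2) : w r ^ 2 = 1 - r / 2 := Real.sq_sqrt (by linarith)

theorem w_two : w 2 = 0 := by unfold w; norm_num

theorem continuous_w : Continuous w := by unfold w; fun_prop

theorem continuous_chi : Continuous chi :=
  Real.smoothTransition.continuous.comp (by fun_prop)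

theorem continuous_q : Continuous q := by
  have := continuous_w
  have := continuous_chi
  unfold q
  fun_prop

theorem q_of_le {r : ℝ} (h : r ≤ 5 / 4) : q r = 1 - 2 * (r - 1) ^ 2 := by
  unfold q; rw [chi_one h]; ring

theorem q_of_ge {r : ℝ} (h : 3 / 2 ≤ r) : q r = (1 - w r) ^ 2 := by
  unfold q; rw [chi_zero h]; ring

theorem q_one : q 1 = 1 := by rw [q_of_le (by norm_num)]; norm_num

theorem q_le_one {r : ℝ} (h : 0 ≤ r) : q r ≤ 1 := by
  have h1 := chi_nonneg r
  have h2 := chi_le_one r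
  have h3 := w_nonneg r
  have h4 := w_le_one h
  unfold q
  have h5 : (1 - w r) ^ 2 ≤ 1 := by nlinarith
  have h6 : 1 - 2 * (r - 1) ^ 2 ≤ 1 := by nlinarith [sq_nonneg (r - 1)]
  nlinarith

theorem q_lt_one {r : ℝ} (h : 0 ≤ r) (h2 : r < 2) (h1 : r ≠ 1) : q r < 1 := by
  have c1 := chi_nonneg r
  have c2 := chi_le_one r
  have h3 := w_pos h2
  have h4 := w_le_one h
  have h5 : (1 - w r) ^ 2 < 1 := by nlinarith
  have h6 : 1 - 2 * (r - 1) ^ 2 < 1 := by
    have : 0 < (r - 1) ^ 2 := by
      have : r - 1 ≠ 0 := sub_ne_zero.2 h1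
      positivity
    linarith
  unfold q
  rcases c1.lt_or_eq with hc | hc
  · nlinarith
  · rw [← hc]; linarith

theorem q_pos {r : ℝ} (h1 : 1 ≤ r) : 0 < q r := by
  have c1 := chi_nonneg r
  have c2 := chi_le_one r
  have h4 := w_lt_one (r := r) (by linarith)
  have h5 : 0 < (1 - w r) ^ 2 := by
    have : 0 < 1 - w r := by linarith
    positivity
  rcases le_or_gt (3 / 2) r with h | h
  · rw [q_of_ge h]; exact h5
  · have h6 : 0 < 1 - 2 * (r - 1) ^ 2 := by nlinarith
    unfold q
    rcases c1.lt_or_eq with hc | hc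
    · nlinarith
    · rw [← hc]; linarith

theorem q_zero : q 0 = -1 := by rw [q_of_le (by norm_num)]; norm_num

theorem contDiffAt_q {r : ℝ} (h : r < 2) : ContDiffAt ℝ ∞ q r := by
  have hw : ContDiffAt ℝ ∞ w r := by
    unfold w
    refine ContDiffAt.sqrt (by fun_prop) ?_
    have : 0 < 1 - r / 2 := by linarith
    exact this.ne'
  have hc : ContDiffAt ℝ ∞ chi r := by
    unfold chi
    exact Real.smoothTransition.contDiff.contDiffAt.comp r (by fun_prop)
  unfold q
  fun_prop

theorem hasDerivAt_q {r : ℝ} (h : r < 5 / 4) : HasDerivAt q (-4 * (r - 1)) r := by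
  have h1 : HasDerivAt (fun r : ℝ => 1 - 2 * (r - 1) ^ 2) (-4 * (r - 1)) r := by
    have := (((hasDerivAt_id' r).sub_const 1).pow 2).const_mul 2 |>.const_sub 1
    refine this.congr_deriv ?_
    simp
    ring
  refine h1.congr_of_eventuallyEq ?_
  filter_upwards [gt_mem_nhds h] with s hs
  exact q_of_le (le_of_lt hs)

variable {n : ℕ}

/-- the height -/
noncomputable def yc (e p : Euc n) : ℝ := ⟪p, e⟫

/-- the square of the distance to the axis -/
noncomputable def rc (e p : Euc n) : ℝ := ‖p‖ ^ 2 - ⟪p, e⟫ ^ 2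

/-- the domain -/
def Dom (e : Euc n) : Set (Euc n) :=
  {p | rc e p < 2 ∧ q (rc e p) < yc e p ^ 2 ∧ yc e p ^ 2 < (1 + w (rc e p)) ^ 2}

theorem continuous_yc (e : Euc n) : Continuous (yc e) := by
  unfold yc; fun_prop

theorem continuous_rc (e : Euc n) : Continuous (rc e) := by
  unfold rc; fun_prop

theorem contDiff_yc (e : Euc n) : ContDiff ℝ ∞ (yc e) := by
  unfold yc
  exact (contDiff_id (E := Euc n)).inner ℝ contDiff_const

theorem contDiff_rc (e : Euc n) : ContDiff ℝ ∞ (rc e) := by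
  unfold rc
  exact (contDiff_norm_sq ℝ).sub (((contDiff_id (E := Euc n)).inner ℝ contDiff_const).pow 2)

theorem rc_nonneg {e : Euc n} (he : ‖e‖ = 1) (p : Euc n) : 0 ≤ rc e p := by
  unfold rc
  have := real_inner_mul_inner_self_le p e
  rw [real_inner_self_eq_norm_sq, real_inner_self_eq_norm_sq, he] at this
  nlinarith

theorem yc_neg (e p : Euc n) : yc (-e) p = - yc e p := by simp [yc]

theorem rc_neg (e p : Euc n) : rc (-e) p = rc e p := by simp [rc]

theorem dom_neg (e : Euc n) : Dom (-e) = Dom e := by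
  ext p; simp [Dom, yc_neg, rc_neg]

theorem isOpen_dom (e : Euc n) : IsOpen (Dom e) := by
  have h1 := continuous_yc e
  have h2 := continuous_rc e
  have h3 := continuous_q.comp h2
  have h4 := continuous_w.comp h2
  refine (isOpen_lt h2 continuous_const).inter ((isOpen_lt h3 (h1.pow 2)).inter
    (isOpen_lt (h1.pow 2) ((continuous_const.add h4).pow 2)))

theorem closure_dom (e : Euc n) : closure (Dom e) ⊆
    {p | rc e p ≤ 2 ∧ q (rc e p) ≤ yc e p ^ 2 ∧ yc e p ^ 2 ≤ (1 + w (rc e p)) ^ 2} := by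
  have h1 := continuous_yc e
  have h2 := continuous_rc e
  have h3 := continuous_q.comp h2
  have h4 := continuous_w.comp h2
  refine closure_minimal (fun p hp => ⟨hp.1.le, hp.2.1.le, hp.2.2.le⟩) ?_
  refine (isClosed_le h2 continuous_const).inter ((isClosed_le h3 (h1.pow 2)).inter
    (isClosed_le (h1.pow 2) ((continuous_const.add h4).pow 2)))

end Pool.Agent.K6.H41.Trap
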