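import Pool.Agent.K6.H41.TrapA

set_option autoImplicit false

open Set Filter Topology

namespace Pool.Agent.K6.H41.Trap

open Pool.Agent.H800R2
open scoped RealInnerProductSpace ContDiff

section flight

variable {y0 vy τ : ℝ} {r : ℝ → ℝ}

theorem flight_low (hτ : 0 < τ) (hr : Continuous r) (h0 : y0 ≤ 1) (h1 : r 0 < 1 ∨ y0 < 0)
    (c1 : ∀ s ∈ Ioc 0 τ, r s = 1 → 1 ≤ (y0 + s * vy) ^ 2)
    (c2 : ∀ s ∈ Ioc 0 τ, y0 + s * vy = 0 → r s < 1)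
    (o1 : ∀ s ∈ Ioo 0 τ, r s = 1 → 1 < (y0 + s * vy) ^ 2) (hy : y0 + τ * vy ≤ 1) :
    (r τ < 1 ∨ y0 + τ * vy < 0) ∨ (r τ = 1 ∧ y0 + τ * vy = 1 ∧ 0 ≤ vy) := by
  by_contra hcon
  push Not at hcon
  obtain ⟨⟨hr1, hy1⟩, htip⟩ := hcon
  have key : ∃ s0 ∈ Icc 0 τ, r s0 < 1 ∧ ∀ s ∈ Icc s0 τ, 0 ≤ y0 + s * vy ∧ y0 + s * vy ≤ 1 := by
    rcases le_or_gt 0 y0 with hy0 | hy0
    · refine ⟨0, ⟨le_rfl, hτ.le⟩, h1.resolve_right (not_lt.2 hy0), fun s hs => ?_⟩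
      rcases le_or_gt 0 vy with hv | hv
      · constructor
        · nlinarith [hs.1, hs.2]
        · nlinarith [hs.1, hs.2]
      · constructor
        · nlinarith [hs.1, hs.2]
        · nlinarith [hs.1, hs.2]
    · have hv : 0 < vy := by
        by_contra hc
        push Not at hc
        nlinarith
      have hs0 : y0 + (-y0 / vy) * vy = 0 := by field_simp; ring
      have hpos : 0 < -y0 / vy := div_pos (by linarith) hv
      have hle : -y0 / vy ≤ τ := by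
        rw [div_le_iff₀ hv]; linarith
      refine ⟨-y0 / vy, ⟨hpos.le, hle⟩, c2 _ ⟨hpos, hle⟩ hs0, fun s hs => ?_⟩
      constructor
      · nlinarith [hs.1, hs.2]
      · nlinarith [hs.1, hs.2]
  obtain ⟨s0, hs0, hrs0, hyy⟩ := key
  have hiv : (1 : ℝ) ∈ r '' Icc s0 τ :=
    intermediate_value_Icc hs0.2 hr.continuousOn ⟨hrs0.le, hr1⟩
  obtain ⟨s', hs', hrs'⟩ := hiv
  have hne : s' ≠ s0 := by
    rintro rfl
    linarith
  have hgt : s0 < s' := lt_of_le_of_ne hs'.1 (Ne.symm hne)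
  have hpos : 0 < s' := lt_of_le_of_lt hs0.1 hgt
  have h2 := c1 s' ⟨hpos, hs'.2⟩ hrs'
  obtain ⟨h3, h4⟩ := hyy s' hs'
  have h5 : y0 + s' * vy = 1 := by nlinarith
  rcases hs'.2.lt_or_eq with hlt | heq
  · have := o1 s' ⟨hpos, hlt⟩ hrs'
    rw [h5] at this
    norm_num at this
  · rw [heq] at hrs' h5
    have := htip hrs' h5
    nlinarith

theorem flight_top (h0 : 1 ≤ y0) (hτ : 0 < τ) (hr : Continuous r)
    (hJ : ∀ s, y0 + s * vy = 1 → r s < 1)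
    (c1 : ∀ s ∈ Ioc 0 τ, r s = 1 → 1 ≤ (y0 + s * vy) ^ 2)
    (hy : y0 + τ * vy < 1) : r τ < 1 ∨ y0 + τ * vy < 0 := by
  by_contra hcon
  push Not at hcon
  obtain ⟨hr1, hy1⟩ := hcon
  have hv : vy < 0 := by
    by_contra hc
    push Not at hc
    nlinarith
  have hs1 : y0 + ((1 - y0) / vy) * vy = 1 := by
    rw [div_mul_cancel₀ _ hv.ne]; ring
  have hnn : 0 ≤ (1 - y0) / vy := div_nonneg_of_nonpos (by linarith) hv.le
  have hle : (1 - y0) / vy ≤ τ := by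
    rw [div_le_iff_of_neg hv]; linarith
  obtain ⟨s', hs', hrs'⟩ : (1 : ℝ) ∈ r '' Icc ((1 - y0) / vy) τ :=
    intermediate_value_Icc hle hr.continuousOn ⟨(hJ _ hs1).le, hr1⟩
  have hne : s' ≠ (1 - y0) / vy := by
    rintro rfl
    have := hJ _ hs1
    linarith
  have hgt : (1 - y0) / vy < s' := lt_of_le_of_ne hs'.1 (Ne.symm hne)
  have h2 := c1 s' ⟨lt_of_le_of_lt hnn hgt, hs'.2⟩ hrs'
  have h3 : y0 + s' * vy < 1 := by nlinarith
  have h4 : 0 ≤ y0 + s' * vy := by nlinarith [hs'.2]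
  nlinarith

theorem flight_up (hτ : 0 < τ) (hr : Continuous r) (h0 : y0 ≤ 1) (h1 : r 0 < 1 ∨ y0 < 0)
    (c1 : ∀ s ∈ Ioc 0 τ, r s = 1 → 1 ≤ (y0 + s * vy) ^ 2)
    (c2 : ∀ s ∈ Ioc 0 τ, y0 + s * vy = 0 → r s < 1)
    (o1 : ∀ s ∈ Ioo 0 τ, r s = 1 → 1 < (y0 + s * vy) ^ 2) (hy : 1 < y0 + τ * vy) :
    0 < vy ∧ ∃ s, y0 + s * vy = 1 ∧ r s < 1 := by
  have hv : 0 < vy := by
    by_contra hc
    push Not at hc
    nlinarith
  refine ⟨hv, (1 - y0) / vy, by field_simp; ring, ?_⟩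
  have hs1 : y0 + ((1 - y0) / vy) * vy = 1 := by field_simp; ring
  have hnn : 0 ≤ (1 - y0) / vy := div_nonneg (by linarith) hv.le
  have hlt : (1 - y0) / vy < τ := by
    rw [div_lt_iff₀ hv]; linarith
  rcases hnn.lt_or_eq with hpos | hz
  · have h2 := flight_low (τ := (1 - y0) / vy) hpos hr h0 h1
      (fun s hs => c1 s ⟨hs.1, hs.2.trans hlt.le⟩) (fun s hs => c2 s ⟨hs.1, hs.2.trans hlt.le⟩)
      (fun s hs => o1 s ⟨hs.1, hs.2.trans hlt⟩) hs1.le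
    rcases h2 with (h2 | h2) | h2
    · exact h2
    · linarith
    · have := o1 _ ⟨hpos, hlt⟩ h2.1
      rw [hs1] at this
      norm_num at this
  · rw [← hz] at hs1 ⊢
    refine h1.resolve_right ?_
    linarith

end flight

variable {n : ℕ}

/-- the conserved quantity of the ellipsoidal mirror -/
noncomputable def J (e p v : Euc n) : ℝ :=
  ⟪v, e⟫ ^ 2 - ⟪v, e⟫ ^ 2 * (‖p‖ ^ 2 - ⟪p, e⟫ ^ 2)
    + 2 * ⟪v, e⟫ * (⟪p, e⟫ - 1) * (⟪p, v⟫ - ⟪p, e⟫ * ⟪v, e⟫)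
    - (⟪p, e⟫ - 1) ^ 2 * (‖v‖ ^ 2 - ⟪v, e⟫ ^ 2)

theorem J_flow (e p v : Euc n) (s : ℝ) : J e (p + s • v) v = J e p v := by
  unfold J
  rw [norm_add_sq_real, inner_add_left, inner_add_left, real_inner_smul_left,
    real_inner_smul_left, real_inner_smul_right, norm_smul, real_inner_self_eq_norm_sq, mul_pow,
    Real.norm_eq_abs, sq_abs]
  ring

theorem J_one {e p : Euc n} (v : Euc n) (h : yc e p = 1) :
    J e p v = ⟪v, e⟫ ^ 2 * (1 - rc e p) := by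
  have h' : ⟪p, e⟫ = 1 := h
  unfold J rc
  rw [h']; ring

/-- the outward normal direction of the upper ellipsoid -/
noncomputable def nrm (e p : Euc n) : Euc n := (p - ⟪p, e⟫ • e) + (2 * (⟪p, e⟫ - 1)) • e

theorem J_reflect {e p v : Euc n} (he : ‖e‖ = 1) (hp : rc e p / 2 + (yc e p - 1) ^ 2 = 1) {c : ℝ}
    (hc : c * ‖nrm e p‖ ^ 2 = 2 * ⟪v, nrm e p⟫) : J e p (v - c • nrm e p) = J e p v := by
  have hee : ⟪e, e⟫ = 1 := by rw [real_inner_self_eq_norm_sq, he]; norm_num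
  have hpe : ⟪e, p⟫ = ⟪p, e⟫ := real_inner_comm _ _
  have hve : ⟪e, v⟫ = ⟪v, e⟫ := real_inner_comm _ _
  have hvp : ⟪v, p⟫ = ⟪p, v⟫ := real_inner_comm _ _
  have hr : ‖p‖ ^ 2 = ⟪p, e⟫ ^ 2 + 2 - 2 * (⟪p, e⟫ - 1) ^ 2 := by
    have : (‖p‖ ^ 2 - ⟪p, e⟫ ^ 2) / 2 + (⟪p, e⟫ - 1) ^ 2 = 1 := hp
    linarith
  have hN2 : ‖nrm e p‖ ^ 2 = 2 + 2 * (⟪p, e⟫ - 1) ^ 2 := by
    rw [← real_inner_self_eq_norm_sq]
    unfold nrm
    simp only [inner_add_left, inner_add_right, inner_sub_left, inner_sub_right,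
      real_inner_smul_left, real_inner_smul_right, hee, hpe]
    rw [real_inner_self_eq_norm_sq, hr]
    ring
  have hvN : ⟪v, nrm e p⟫ = ⟪p, v⟫ - ⟪p, e⟫ * ⟪v, e⟫ + 2 * (⟪p, e⟫ - 1) * ⟪v, e⟫ := by
    unfold nrm
    simp only [inner_add_right, inner_sub_right, real_inner_smul_right, hvp]
  have hNe : ⟪nrm e p, e⟫ = 2 * (⟪p, e⟫ - 1) := by
    unfold nrm
    simp only [inner_add_left, inner_sub_left, real_inner_smul_left, hee]
    ring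
  have hpN : ⟪p, nrm e p⟫ = 2 - 2 * (⟪p, e⟫ - 1) ^ 2 + 2 * (⟪p, e⟫ - 1) * ⟪p, e⟫ := by
    unfold nrm
    simp only [inner_add_right, inner_sub_right, real_inner_smul_right]
    rw [real_inner_self_eq_norm_sq, hr]
    ring
  rw [hN2, hvN] at hc
  have hspeed : ‖v - c • nrm e p‖ ^ 2 = ‖v‖ ^ 2 := by
    rw [norm_sub_sq_real, real_inner_smul_right, norm_smul, mul_pow, Real.norm_eq_abs, sq_abs,
      hN2, hvN]
    linear_combination c * hc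
  have h1 : ⟪v - c • nrm e p, e⟫ = ⟪v, e⟫ - c * (2 * (⟪p, e⟫ - 1)) := by
    rw [inner_sub_left, real_inner_smul_left, hNe]
  have h2 : ⟪p, v - c • nrm e p⟫ =
      ⟪p, v⟫ - c * (2 - 2 * (⟪p, e⟫ - 1) ^ 2 + 2 * (⟪p, e⟫ - 1) * ⟪p, e⟫) := by
    rw [inner_sub_right, real_inner_smul_right, hpN]
  unfold J
  rw [hspeed, h1, h2, hr]
  generalize ⟪p, e⟫ = y at *
  generalize ⟪v, e⟫ = V at *
  generalize ⟪p, v⟫ = D at *
  generalize ‖v‖ ^ 2 = W at *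
  linear_combination (2 * c * (y - 1) ^ 2) * hc

end Pool.Agent.K6.H41.Trap
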