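import Pool.Agent.K6.H41.TrapB

set_option autoImplicit false

open Set Filter Topology

namespace Pool.Agent.K6.H41.Trap

open Pool.Agent.H800R2
open scoped RealInnerProductSpace ContDiff

variable {n : ℕ}

/-- a function that is smooth near a point agrees near it with a smooth function -/
theorem exists_global {F : Euc n → ℝ} {x : Euc n} (hF : ∀ᶠ y in 𝓝 x, ContDiffAt ℝ ∞ F y) :
    ∃ G : Euc n → ℝ, ContDiff ℝ ∞ G ∧ G =ᶠ[𝓝 x] F := by
  obtain ⟨ε, hε, hball⟩ := Metric.eventually_nhds_iff_ball.1 hF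
  let f : ContDiffBump x := ⟨ε / 4, ε / 2, by positivity, by linarith⟩
  refine ⟨fun y => f y * F y, ?_, ?_⟩
  · rw [contDiff_iff_contDiffAt]
    intro y
    by_cases hy : y ∈ Metric.ball x ε
    · exact f.contDiffAt.mul (hball y hy)
    · have hy' : y ∈ (Metric.closedBall x (ε / 2))ᶜ := by
        intro hc
        apply hy
        rw [Metric.mem_closedBall] at hc
        rw [Metric.mem_ball]
        linarith
      have : (fun y => f y * F y) =ᶠ[𝓝 y] fun _ => (0 : ℝ) := by
        filter_upwards [Metric.isClosed_closedBall.isOpen_compl.mem_nhds hy'] with z hz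
        have hz' : ε / 2 < dist z x := by
          by_contra hc
          exact hz (Metric.mem_closedBall.2 (not_lt.1 hc))
        rw [f.zero_of_le_dist hz'.le, zero_mul]
      exact contDiffAt_const.congr_of_eventuallyEq this
  · filter_upwards [f.eventuallyEq_one] with y hy
    rw [hy]; simp

theorem isDefFun_of_local {Ω : Set (Euc n)} {F : Euc n → ℝ} {x g : Euc n}
    (hF : ∀ᶠ y in 𝓝 x, ContDiffAt ℝ ∞ F y) (hg : HasGradientAt F g x) (hg0 : g ≠ 0)
    (h : ∀ᶠ y in 𝓝 x, (y ∈ Ω ↔ F y < 0)) : ∃ G, IsDefFun Ω x G ∧ gradient G x = g := by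
  obtain ⟨G, hG, hGF⟩ := exists_global hF
  have hgr : gradient G x = g := by
    have : HasFDerivAt G (InnerProductSpace.toDual ℝ (Euc n) g) x :=
      (hasGradientAt_iff_hasFDerivAt.1 hg).congr_of_eventuallyEq hGF
    exact (hasGradientAt_iff_hasFDerivAt.2 this).gradient
  refine ⟨G, ⟨hG, by rw [hgr]; exact hg0, ?_⟩, hgr⟩
  filter_upwards [h, hGF] with y h1 h2
  rw [h2]; exact h1

theorem hasFDerivAt_yc (e p : Euc n) : HasFDerivAt (yc e) (innerSL ℝ e) p := by
  have : yc e = fun p => innerSL ℝ e p := by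
    funext p
    simp [yc, real_inner_comm]
  rw [this]
  exact (innerSL ℝ e).hasFDerivAt

theorem hasFDerivAt_rc (e p : Euc n) :
    HasFDerivAt (rc e) ((2 : ℝ) • innerSL ℝ (p - ⟪p, e⟫ • e)) p := by
  have h1 := (hasStrictFDerivAt_norm_sq p).hasFDerivAt
  have h2 := (hasFDerivAt_yc e p).pow 2
  have h3 := h1.sub h2
  refine h3.congr_fderiv ?_
  ext u
  simp [yc, inner_sub_left, real_inner_smul_left]
  ring

/-- defining function of the upper ellipsoid -/
noncomputable def FA (e p : Euc n) : ℝ := rc e p / 2 + (yc e p - 1) ^ 2 - 1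

/-- defining function of the inner wall -/
noncomputable def FB (e p : Euc n) : ℝ := q (rc e p) - yc e p ^ 2

theorem contDiff_FA (e : Euc n) : ContDiff ℝ ∞ (FA e) := by
  have h1 := contDiff_yc e
  have h2 := contDiff_rc e
  unfold FA
  fun_prop

theorem hasGradientAt_FA (e p : Euc n) : HasGradientAt (FA e) (nrm e p) p := by
  rw [hasGradientAt_iff_hasFDerivAt]
  have h1 := hasFDerivAt_yc e p
  have h2 := hasFDerivAt_rc e p
  have h3 := ((h2.mul_const (1 / 2)).add ((h1.sub_const 1).pow 2)).sub_const 1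
  have h4 : FA e = fun p => rc e p * (1 / 2) + (yc e p - 1) ^ 2 - 1 := by
    funext p; unfold FA; ring
  rw [h4]
  refine h3.congr_fderiv ?_
  ext u
  simp [nrm, yc, inner_add_left, inner_sub_left, real_inner_smul_left]

theorem hasGradientAt_FB (e p : Euc n) {c : ℝ} (h : HasDerivAt q c (rc e p)) :
    HasGradientAt (FB e) ((2 * c) • (p - ⟪p, e⟫ • e) - (2 * ⟪p, e⟫) • e) p := by
  rw [hasGradientAt_iff_hasFDerivAt]
  have h1 := hasFDerivAt_yc e p
  have h2 := hasFDerivAt_rc e p
  have h3 := (h.comp_hasFDerivAt p h2).sub (h1.pow 2)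
  refine h3.congr_fderiv ?_
  ext u
  simp [yc, inner_sub_left, real_inner_smul_left]
  ring

theorem norm_nrm_sq {e p : Euc n} (he : ‖e‖ = 1) :
    ‖nrm e p‖ ^ 2 = rc e p + 4 * (yc e p - 1) ^ 2 := by
  have hee : ⟪e, e⟫ = 1 := by rw [real_inner_self_eq_norm_sq, he]; norm_num
  have hpe : ⟪e, p⟫ = ⟪p, e⟫ := real_inner_comm _ _
  rw [← real_inner_self_eq_norm_sq]
  unfold nrm rc yc
  simp only [inner_add_left, inner_add_right, inner_sub_left, inner_sub_right,
    real_inner_smul_left, real_inner_smul_right, hee, hpe]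
  rw [real_inner_self_eq_norm_sq]
  ring

theorem nrm_ne_zero {e p : Euc n} (he : ‖e‖ = 1) (hp : rc e p / 2 + (yc e p - 1) ^ 2 = 1) :
    nrm e p ≠ 0 := by
  intro h
  have h1 := norm_nrm_sq (p := p) he
  rw [h, norm_zero] at h1
  nlinarith [sq_nonneg (yc e p - 1)]

theorem mem_dom_of_one_lt {e p : Euc n} (he : ‖e‖ = 1) (hy : 1 < yc e p) :
    p ∈ Dom e ↔ FA e p < 0 := by
  have hr := rc_nonneg he p
  have hw := w_nonneg (rc e p)
  constructor
  · rintro ⟨h1, h2, h3⟩
    have h4 := w_sq h1.le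
    have h5 : yc e p < 1 + w (rc e p) := lt_of_pow_lt_pow_left₀ 2 (by linarith) h3
    have h6 : (yc e p - 1) ^ 2 < w (rc e p) ^ 2 :=
      pow_lt_pow_left₀ (by linarith) (by linarith) two_ne_zero
    unfold FA
    linarith
  · intro h
    unfold FA at h
    have h1 : rc e p < 2 := by nlinarith [sq_nonneg (yc e p - 1)]
    have h4 := w_sq h1.le
    have h5 : (yc e p - 1) ^ 2 < w (rc e p) ^ 2 := by linarith
    have h6 : yc e p - 1 < w (rc e p) := lt_of_pow_lt_pow_left₀ 2 hw h5
    refine ⟨h1, ?_, ?_⟩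
    · have := q_le_one hr
      nlinarith
    · exact pow_lt_pow_left₀ (by linarith) (by linarith) two_ne_zero

theorem isDefFun_A {e p : Euc n} (he : ‖e‖ = 1) (hp : rc e p / 2 + (yc e p - 1) ^ 2 = 1)
    (hy : 1 < yc e p ∨ (rc e p = 2 ∧ yc e p = 1)) : IsDefFun (Dom e) p (FA e) := by
  refine ⟨contDiff_FA e, ?_, ?_⟩
  · rw [(hasGradientAt_FA e p).gradient]
    exact nrm_ne_zero he hp
  · rcases hy with hy | ⟨hr, hy⟩
    · have : ∀ᶠ z in 𝓝 p, 1 < yc e z := (continuous_yc e).continuousAt.eventually (lt_mem_nhds hy)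
      filter_upwards [this] with z hz
      exact mem_dom_of_one_lt he hz
    · have h1 : ∀ᶠ z in 𝓝 p, 0 < yc e z :=
        (continuous_yc e).continuousAt.eventually (lt_mem_nhds (by rw [hy]; norm_num))
      have h2 : ∀ᶠ z in 𝓝 p, 3 / 2 < rc e z :=
        (continuous_rc e).continuousAt.eventually (lt_mem_nhds (by rw [hr]; norm_num))
      filter_upwards [h1, h2] with z hz1 hz2
      have hw := w_nonneg (rc e z)
      have hw1 := w_lt_one (r := rc e z) (by linarith)
      constructor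
      · rintro ⟨k1, k2, k3⟩
        rw [q_of_ge hz2.le] at k2
        have h4 := w_sq k1.le
        have h5 : yc e z < 1 + w (rc e z) := lt_of_pow_lt_pow_left₀ 2 (by linarith) k3
        have h6 : 1 - w (rc e z) < yc e z := lt_of_pow_lt_pow_left₀ 2 hz1.le k2
        unfold FA
        nlinarith
      · intro h
        unfold FA at h
        have k1 : rc e z < 2 := by nlinarith [sq_nonneg (yc e z - 1)]
        have h4 := w_sq k1.le
        have h5 : (yc e z - 1) ^ 2 < w (rc e z) ^ 2 := by linarith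
        obtain ⟨h6, h7⟩ := abs_lt.1 (abs_lt_of_sq_lt_sq h5 hw)
        refine ⟨k1, ?_, ?_⟩
        · rw [q_of_ge hz2.le]
          exact pow_lt_pow_left₀ (by linarith) (by linarith) two_ne_zero
        · exact pow_lt_pow_left₀ (by linarith) (by linarith) two_ne_zero

theorem isDefFun_B {e p : Euc n} (he : ‖e‖ = 1) (hr : rc e p < 2) (hq : q (rc e p) = yc e p ^ 2)
    {c : ℝ} (hc : HasDerivAt q c (rc e p)) :
    ∃ F, IsDefFun (Dom e) p F ∧
      gradient F p = (2 * c) • (p - ⟪p, e⟫ • e) - (2 * ⟪p, e⟫) • e := by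
  have hrn := rc_nonneg he p
  have hee : ⟪e, e⟫ = 1 := by rw [real_inner_self_eq_norm_sq, he]; norm_num
  have hpe : ⟪e, p⟫ = ⟪p, e⟫ := real_inner_comm _ _
  have hcr := (continuous_rc e).continuousAt.eventually (gt_mem_nhds hr)
  refine isDefFun_of_local (F := FB e) ?_ (hasGradientAt_FB e p hc) ?_ ?_
  · filter_upwards [hcr] with z hz
    unfold FB
    exact ((contDiffAt_q hz).comp z (contDiff_rc e).contDiffAt).sub
      ((contDiff_yc e).contDiffAt.pow 2)
  · intro h0
    by_cases hy : ⟪p, e⟫ = 0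
    · have hq0 : q (rc e p) = 0 := by
        rw [hq]; unfold yc; rw [hy]; norm_num
      have hr1 : rc e p < 1 := by
        by_contra hcon
        exact absurd hq0 (q_pos (not_lt.1 hcon)).ne'
      have hc2 := hc.unique (hasDerivAt_q (by linarith))
      have h1 : ⟪(2 * c) • (p - ⟪p, e⟫ • e) - (2 * ⟪p, e⟫) • e, p⟫ = 0 := by
        rw [h0, inner_zero_left]
      rw [hy] at h1
      simp only [zero_smul, sub_zero, mul_zero, real_inner_smul_left] at h1
      rw [real_inner_self_eq_norm_sq] at h1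
      have hrp : rc e p = ‖p‖ ^ 2 := by unfold rc; rw [hy]; ring
      rw [← hrp, hc2] at h1
      have hr0 : rc e p ≠ 0 := by
        intro h
        rw [h, q_zero] at hq0
        norm_num at hq0
      have : 2 * (-4 * (rc e p - 1)) ≠ 0 := by
        intro h
        linarith
      exact (mul_ne_zero this hr0) h1
    · have h1 : ⟪(2 * c) • (p - ⟪p, e⟫ • e) - (2 * ⟪p, e⟫) • e, e⟫ = 0 := by
        rw [h0, inner_zero_left]
      simp only [inner_sub_left, real_inner_smul_left, hee] at h1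
      apply hy
      linarith
  · have hlt : yc e p ^ 2 < (1 + w (rc e p)) ^ 2 := by
      have := q_le_one hrn
      have := w_pos hr
      nlinarith
    have h1 : ContinuousAt (fun z => (1 + w (rc e z)) ^ 2 - yc e z ^ 2) p := by
      have h1 := continuous_yc e
      have h4 := continuous_w.comp (continuous_rc e)
      exact (((continuous_const.add h4).pow 2).sub (h1.pow 2)).continuousAt
    have h2 := h1.eventually (lt_mem_nhds (sub_pos.2 hlt))
    filter_upwards [hcr, h2] with z hz1 hz2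
    unfold FB
    constructor
    · rintro ⟨-, h, -⟩
      linarith
    · intro h
      exact ⟨hz1, by linarith, by linarith⟩

theorem frontier_cases {e p : Euc n} (hp : p ∈ frontier (Dom e))
    (hy : 0 ≤ yc e p) :
    (rc e p / 2 + (yc e p - 1) ^ 2 = 1 ∧ (1 < yc e p ∨ (rc e p = 2 ∧ yc e p = 1))) ∨
      (rc e p < 2 ∧ q (rc e p) = yc e p ^ 2) := by
  rw [(isOpen_dom e).frontier_eq] at hp
  obtain ⟨hp1, hp2⟩ := hp
  obtain ⟨h1, h2, h3⟩ := closure_dom e hp1
  rcases h1.lt_or_eq with h1' | h1'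
  · rcases h2.lt_or_eq with h2' | h2'
    · left
      have h3' : yc e p ^ 2 = (1 + w (rc e p)) ^ 2 := by
        rcases h3.lt_or_eq with h | h
        · exact absurd ⟨h1', h2', h⟩ hp2
        · exact h
      have hw := w_pos h1'
      have h4 : yc e p = 1 + w (rc e p) :=
        (pow_left_inj₀ hy (by linarith) two_ne_zero).1 h3'
      have h5 := w_sq h1
      refine ⟨?_, Or.inl (by linarith)⟩
      rw [h4]
      linarith [h5, show (1 + w (rc e p) - 1) ^ 2 = w (rc e p) ^ 2 by ring]
    · exact Or.inr ⟨h1', h2'⟩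
  · left
    rw [h1', q_of_ge (by norm_num), w_two] at h2
    rw [h1', w_two] at h3
    have h4 : yc e p = 1 := by nlinarith
    refine ⟨?_, Or.inr ⟨h1', h4⟩⟩
    rw [h1', h4]; norm_num

theorem differentiable_q {r : ℝ} (h : r < 2) : HasDerivAt q (deriv q r) r :=
  ((contDiffAt_q h).differentiableAt (by simp)).hasDerivAt

theorem smooth_dom {e : Euc n} (he : ‖e‖ = 1) (p : Euc n) (hp : p ∈ frontier (Dom e)) :
    ∃ F, IsDefFun (Dom e) p F := by
  have key : ∀ e' : Euc n, ‖e'‖ = 1 → p ∈ frontier (Dom e') → 0 ≤ yc e' p →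
      ∃ F, IsDefFun (Dom e') p F := by
    intro e' he' hp' hy
    rcases frontier_cases hp' hy with ⟨h1, h2⟩ | ⟨h1, h2⟩
    · exact ⟨_, isDefFun_A he' h1 h2⟩
    · obtain ⟨F, hF, -⟩ := isDefFun_B he' h1 h2 (differentiable_q h1)
      exact ⟨F, hF⟩
  rcases le_total 0 (yc e p) with h | h
  · exact key e he hp h
  · have := key (-e) (by rw [norm_neg, he]) (by rw [dom_neg]; exact hp)
      (by rw [yc_neg]; linarith)
    rwa [dom_neg] at this

theorem bounded_dom {e : Euc n} (he : ‖e‖ = 1) : Bornology.IsBounded (Dom e) := by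
  rw [isBounded_iff_forall_norm_le]
  refine ⟨3, fun p hp => ?_⟩
  obtain ⟨h1, -, h3⟩ := hp
  have h4 := w_le_one (rc_nonneg he p)
  have h5 := w_nonneg (rc e p)
  have h6 : ‖p‖ ^ 2 = rc e p + yc e p ^ 2 := by unfold rc yc; ring
  have h7 : ‖p‖ ^ 2 ≤ 3 ^ 2 := by nlinarith
  exact le_of_sq_le_sq h7 (by norm_num) |> fun h => h

end Pool.Agent.K6.H41.Trap
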