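import Pool.Agent.K6.H41.TrapC

set_option autoImplicit false

open Set Filter Topology

namespace Pool.Agent.K6.H41.Trap

open Pool.Agent.H800R2
open scoped RealInnerProductSpace ContDiff

variable {n : ℕ}

theorem yc_e {e : Euc n} (he : ‖e‖ = 1) : yc e e = 1 := by
  unfold yc
  rw [real_inner_self_eq_norm_sq, he]; norm_num

theorem yc_add_smul (e p v : Euc n) (s : ℝ) : yc e (p + s • v) = yc e p + s * ⟪v, e⟫ := by
  unfold yc
  rw [inner_add_left, real_inner_smul_left]

theorem rc_add_smul_e {e : Euc n} (he : ‖e‖ = 1) (p : Euc n) (s : ℝ) :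
    rc e (p + s • e) = rc e p := by
  have hee : ⟪e, e⟫ = 1 := by rw [real_inner_self_eq_norm_sq, he]; norm_num
  unfold rc
  rw [norm_add_sq_real, inner_add_left, real_inner_smul_left, real_inner_smul_right, hee,
    norm_smul, he, Real.norm_eq_abs, mul_one, sq_abs]
  ring

theorem zero_mem_dom (e : Euc n) : (0 : Euc n) ∈ Dom e := by
  have h1 : rc e (0 : Euc n) = 0 := by simp [rc]
  have h2 : yc e (0 : Euc n) = 0 := by simp [yc]
  have h3 := w_nonneg 0
  refine ⟨by rw [h1]; norm_num, by rw [h1, h2, q_zero]; norm_num, ?_⟩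
  rw [h1, h2]
  nlinarith

theorem mem_dom_axis {e : Euc n} (he : ‖e‖ = 1) {s : ℝ} (h0 : 0 ≤ s) (h1 : s ≤ 1) :
    s • e ∈ Dom e := by
  have h2 : rc e (s • e) = 0 := by
    have := rc_add_smul_e he 0 s
    rw [zero_add] at this
    rw [this]; simp [rc]
  have h3 : yc e (s • e) = s := by
    have := yc_add_smul e 0 e s
    rw [zero_add] at this
    rw [this]
    have := yc_e he
    unfold yc at this ⊢
    rw [this]; simp
  have h4 : w 0 = 1 := by unfold w; norm_num
  refine ⟨by rw [h2]; norm_num, by rw [h2, h3, q_zero]; nlinarith, ?_⟩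
  rw [h2, h3, h4]
  nlinarith

theorem joined_zero_e {e : Euc n} (he : ‖e‖ = 1) : JoinedIn (Dom e) 0 e := by
  refine JoinedIn.of_segment_subset ?_
  rintro z ⟨a, b, ha, hb, hab, rfl⟩
  rw [smul_zero, zero_add]
  exact mem_dom_axis he hb (by linarith)

theorem joined_high {e p : Euc n} (he : ‖e‖ = 1) (hp : p ∈ Dom e) (hy : 1 < yc e p) :
    JoinedIn (Dom e) p e := by
  refine JoinedIn.of_segment_subset ?_
  rintro z ⟨a, b, ha, hb, hab, rfl⟩
  rcases ha.lt_or_eq with ha | ha
  · have hA := (mem_dom_of_one_lt he hy).1 hp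
    have h1 : yc e (a • p + b • e) = a * yc e p + b := by
      have h := yc_add_smul e (a • p) e b
      rw [h]
      have := yc_e he
      unfold yc at this ⊢
      rw [this, real_inner_smul_left]; ring
    have h2 : rc e (a • p + b • e) = a ^ 2 * rc e p := by
      rw [rc_add_smul_e he]
      unfold rc
      rw [norm_smul, real_inner_smul_left, mul_pow, Real.norm_eq_abs, sq_abs]
      ring
    have h3 : 1 < yc e (a • p + b • e) := by
      rw [h1]
      nlinarith
    rw [mem_dom_of_one_lt he h3]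
    unfold FA at hA ⊢
    rw [h1, h2]
    have h4 : a * yc e p + b - 1 = a * (yc e p - 1) := by
      have : b = 1 - a := by linarith
      rw [this]; ring
    rw [h4]
    have h5 : a ^ 2 * rc e p / 2 + (a * (yc e p - 1)) ^ 2 - 1 =
      a ^ 2 * (rc e p / 2 + (yc e p - 1) ^ 2 - 1) + (a ^ 2 - 1) := by ring
    rw [h5]
    have h6 : a ≤ 1 := by linarith
    have h7 : a ^ 2 ≤ 1 := by nlinarith
    have h8 : 0 < a ^ 2 := by positivity
    nlinarith
  · rw [← ha] at hab ⊢
    have hb1 : b = 1 := by linarith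
    rw [hb1, zero_smul, zero_add]
    exact mem_dom_axis he zero_le_one le_rfl

theorem joined_low {e p : Euc n} (he : ‖e‖ = 1) (hp : p ∈ Dom e) (hy0 : 0 ≤ yc e p) :
    JoinedIn (Dom e) p e := by
  rcases lt_or_ge 1 (yc e p) with hy | hy
  · exact joined_high he hp hy
  · have hw := w_pos hp.1
    set h : ℝ := 1 + w (rc e p) / 2 - yc e p with hh
    have hh0 : 0 ≤ h := by rw [hh]; linarith
    have hcoord : ∀ s : ℝ, yc e (p + s • e) = yc e p + s := by
      intro s
      rw [yc_add_smul]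
      have := yc_e he
      unfold yc at this ⊢
      rw [this, mul_one]
    have hseg : ∀ s : ℝ, 0 ≤ s → s ≤ h → p + s • e ∈ Dom e := by
      intro s hs0 hs1
      obtain ⟨k1, k2, k3⟩ := hp
      refine ⟨by rw [rc_add_smul_e he]; exact k1, ?_, ?_⟩
      · rw [rc_add_smul_e he, hcoord]
        nlinarith
      · rw [rc_add_smul_e he, hcoord]
        refine pow_lt_pow_left₀ ?_ (by linarith) two_ne_zero
        rw [hh] at hs1
        linarith
    have h1 : JoinedIn (Dom e) p (p + h • e) := by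
      refine JoinedIn.of_segment_subset ?_
      rintro z ⟨a, b, ha, hb, hab, rfl⟩
      have : a • p + b • (p + h • e) = p + (b * h) • e := by
        rw [smul_add, smul_smul, ← add_assoc, ← add_smul, hab, one_smul]
      rw [this]
      exact hseg _ (mul_nonneg hb hh0) (by nlinarith)
    refine h1.trans (joined_high he (hseg h hh0 le_rfl) ?_)
    rw [hcoord, hh]
    linarith

theorem isPathConnected_dom {e : Euc n} (he : ‖e‖ = 1) : IsPathConnected (Dom e) := by
  refine ⟨0, zero_mem_dom e, fun {p} hp => ?_⟩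
  rcases le_total 0 (yc e p) with h | h
  · exact (joined_zero_e he).trans (joined_low he hp h).symm
  · have he' : ‖-e‖ = 1 := by rw [norm_neg, he]
    rw [← dom_neg] at hp ⊢
    exact (joined_zero_e he').trans (joined_low he' hp (by rw [yc_neg]; linarith)).symm

theorem isSmoothDomain_dom {e : Euc n} (he : ‖e‖ = 1) : IsSmoothDomain (Dom e) :=
  ⟨isOpen_dom e, (isPathConnected_dom he).isConnected, bounded_dom he, smooth_dom he⟩

/-- the states from which the upper pocket is never reached -/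
def Good (e p v : Euc n) : Prop :=
  (1 ≤ yc e p ∧ 0 < J e p v) ∨ (yc e p ≤ 1 ∧ (rc e p < 1 ∨ yc e p < 0))

/-- the upper pocket -/
def Pocket (e : Euc n) : Set (Euc n) := {p | p ∈ Dom e ∧ 1 < rc e p ∧ 0 < yc e p ∧ yc e p < 1}

theorem not_mem_pocket {e p v : Euc n} (h : Good e p v) : p ∉ Pocket e := by
  rintro ⟨-, h1, h2, h3⟩
  rcases h with h | h
  · linarith [h.1]
  · rcases h.2 with h | h <;> linarith

theorem continuous_line (p v : Euc n) : Continuous fun s : ℝ => p + s • v := by fun_prop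

theorem good_flight {e p v : Euc n} {τ : ℝ} (hτ : 0 < τ)
    (hin : ∀ s ∈ Ioo 0 τ, p + s • v ∈ Dom e) (hcl : p + τ • v ∈ closure (Dom e))
    (hg : Good e p v) :
    Good e (p + τ • v) v ∨
      (rc e (p + τ • v) = 1 ∧ yc e (p + τ • v) = 1 ∧ 0 ≤ ⟪v, e⟫ ∧ ¬ (0 < J e p v)) := by
  set r : ℝ → ℝ := fun s => rc e (p + s • v) with hr
  have hrc : Continuous r := (continuous_rc e).comp (continuous_line p v)
  have hy : ∀ s : ℝ, yc e (p + s • v) = yc e p + s * ⟪v, e⟫ := yc_add_smul e p v
  have hcl' : ∀ s ∈ Ioc 0 τ, p + s • v ∈ closure (Dom e) := by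
    intro s hs
    rcases hs.2.lt_or_eq with h | h
    · exact subset_closure (hin s ⟨hs.1, h⟩)
    · rw [h]; exact hcl
  have c1 : ∀ s ∈ Ioc 0 τ, r s = 1 → 1 ≤ (yc e p + s * ⟪v, e⟫) ^ 2 := by
    intro s hs h
    have := (closure_dom e (hcl' s hs)).2.1
    rw [hy] at this
    change q (r s) ≤ _ at this
    rwa [h, q_one] at this
  have c2 : ∀ s ∈ Ioc 0 τ, yc e p + s * ⟪v, e⟫ = 0 → r s < 1 := by
    intro s hs h
    have := (closure_dom e (hcl' s hs)).2.1
    rw [hy, h] at this
    by_contra hcon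
    have h2 := q_pos (not_lt.1 hcon)
    change q (r s) ≤ _ at this
    linarith
  have o1 : ∀ s ∈ Ioo 0 τ, r s = 1 → 1 < (yc e p + s * ⟪v, e⟫) ^ 2 := by
    intro s hs h
    have := (hin s hs).2.1
    rw [hy] at this
    change q (r s) < _ at this
    rwa [h, q_one] at this
  by_cases hJ : 0 < J e p v ∧ 1 ≤ yc e p
  · left
    obtain ⟨hJ, hg1⟩ := hJ
    rcases le_or_gt 1 (yc e (p + τ • v)) with h | h
    · exact Or.inl ⟨h, by rw [J_flow]; exact hJ⟩
    · right
      refine ⟨h.le, ?_⟩
      have hJ' : ∀ s, yc e p + s * ⟪v, e⟫ = 1 → r s < 1 := by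
        intro s hs
        have h1 : yc e (p + s • v) = 1 := by rw [hy, hs]
        have h2 := J_one v h1
        rw [J_flow] at h2
        rw [h2] at hJ
        have h3 := sq_nonneg ⟪v, e⟫
        by_contra hcon
        have : 1 ≤ rc e (p + s • v) := not_lt.1 hcon
        nlinarith
      have := flight_top hg1 hτ hrc hJ' c1 (by rw [← hy]; exact h)
      rw [← hy] at this
      exact this
  · have hlow : yc e p ≤ 1 ∧ (rc e p < 1 ∨ yc e p < 0) := by
      rcases hg with h | h
      · exact absurd ⟨h.2, h.1⟩ hJ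
      · exact h
    have hr0 : r 0 = rc e p := by simp [hr]
    rcases le_or_gt (yc e (p + τ • v)) 1 with h | h
    · have := flight_low hτ hrc hlow.1 (by rw [hr0]; exact hlow.2) c1 c2 o1
        (by rw [← hy]; exact h)
      rw [← hy] at this
      rcases this with h1 | h1
      · exact Or.inl (Or.inr ⟨h, h1⟩)
      · by_cases hJ2 : 0 < J e p v
        · left
          left
          exact ⟨h1.2.1.ge, by rw [J_flow]; exact hJ2⟩
        · exact Or.inr ⟨h1.1, h1.2.1, h1.2.2, hJ2⟩
    · obtain ⟨hv, s, hs1, hs2⟩ := flight_up hτ hrc hlow.1 (by rw [hr0]; exact hlow.2) c1 c2 o1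
        (by rw [← hy]; exact h)
      left
      left
      refine ⟨h.le, ?_⟩
      have h1 : yc e (p + s • v) = 1 := by rw [hy, hs1]
      have h2 := J_one v h1
      rw [J_flow] at h2
      rw [J_flow, h2]
      have h3 : 0 < ⟪v, e⟫ ^ 2 := by positivity
      have h4 : rc e (p + s • v) < 1 := hs2
      exact mul_pos h3 (by linarith)

theorem good_bounce {e p v ν : Euc n} (he : ‖e‖ = 1) {τ : ℝ} (hτ : 0 < τ)
    (hin : ∀ s ∈ Ioo 0 τ, p + s • v ∈ Dom e) (hb : p + τ • v ∈ frontier (Dom e))
    (hν : IsOuterNormal (Dom e) (p + τ • v) ν) (hv : 0 < ⟪v, ν⟫) (hg : Good e p v) :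
    Good e (p + τ • v) (v - (2 * ⟪v, ν⟫) • ν) := by
  obtain ⟨F, hF, rfl⟩ := hν
  have hflight := good_flight hτ hin (frontier_subset_closure hb) hg
  rcases hflight with (h | h) | h
  · rcases h.1.lt_or_eq with hy | hy
    · rcases frontier_cases hb (by linarith) with ⟨h1, h2⟩ | ⟨h1, h2⟩
      · have hA := isDefFun_A he h1 (Or.inl hy)
        have hnu := hF.normal_unique hA (isOpen_dom e) hb
        rw [(hasGradientAt_FA e _).gradient] at hnu
        rw [hnu]
        left
        refine ⟨h.1, ?_⟩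
        have hN : ‖nrm e (p + τ • v)‖ ≠ 0 := norm_ne_zero_iff.2 (nrm_ne_zero he h1)
        rw [real_inner_smul_right, smul_smul]
        rw [J_reflect he h1 (c := 2 * (‖nrm e (p + τ • v)‖⁻¹ * ⟪v, nrm e (p + τ • v)⟫) *
          ‖nrm e (p + τ • v)‖⁻¹)]
        · exact h.2
        · field_simp
      · exfalso
        have h3 := q_le_one (rc_nonneg he (p + τ • v))
        rw [h2] at h3
        nlinarith
    · right
      refine ⟨hy.ge, Or.inl ?_⟩
      have h2 := J_one v hy.symm
      rw [h2] at h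
      have h3 := sq_nonneg ⟪v, e⟫
      by_contra hcon
      have : 1 ≤ rc e (p + τ • v) := not_lt.1 hcon
      nlinarith [h.2]
  · exact Or.inr h
  · exfalso
    obtain ⟨h1, h2, h3, -⟩ := h
    have hq : HasDerivAt q 0 (rc e (p + τ • v)) := by
      have := hasDerivAt_q (r := 1) (by norm_num)
      rw [h1]
      simpa using this
    obtain ⟨G, hG, hgr⟩ := isDefFun_B (e := e) (p := p + τ • v) he (by rw [h1]; norm_num)
      (by rw [h1, h2, q_one]; norm_num) hq
    have hnu := hF.normal_unique hG (isOpen_dom e) hb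
    rw [hnu, hgr] at hv
    have h4 : ⟪p + τ • v, e⟫ = 1 := h2
    rw [h4] at hv
    rw [mul_zero, zero_smul, zero_sub, mul_one, smul_neg, inner_neg_right, smul_smul,
      real_inner_smul_right] at hv
    have : 0 ≤ ‖-((2 : ℝ) • e)‖⁻¹ * 2 * ⟪v, e⟫ := by positivity
    linarith

theorem good_photon {e : Euc n} (he : ‖e‖ = 1) {p v q : Euc n} {t : ℝ}
    (h : Photon (Dom e) p v t q) : Good e p v → q ∉ Pocket e := by
  induction h with
  | fly p v t ht hin =>
    intro hg
    rcases ht.lt_or_eq with ht | ht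
    · have h1 := hin t ⟨ht, le_rfl⟩
      rcases good_flight ht (fun s hs => hin s ⟨hs.1, hs.2.le⟩) (subset_closure h1) hg with h | h
      · exact not_mem_pocket h
      · intro hq
        linarith [hq.2.2.2, h.2.1]
    · rw [← ht, zero_smul, add_zero]
      exact not_mem_pocket hg
  | bounce p v ν q τ t hτ hin hb hν hv _ ih =>
    intro hg
    exact ih (good_bounce he hτ hin hb hν hv hg)

theorem isOpen_pocket (e : Euc n) : IsOpen (Pocket e) :=
  (isOpen_dom e).inter ((isOpen_lt continuous_const (continuous_rc e)).inter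
    ((isOpen_lt continuous_const (continuous_yc e)).inter
      (isOpen_lt (continuous_yc e) continuous_const)))

theorem pocket_nonempty {e f : Euc n} (he : ‖e‖ = 1) (hf : ‖f‖ = 1) (hef : ⟪f, e⟫ = 0) :
    (Pocket e).Nonempty := by
  have hee : ⟪e, e⟫ = 1 := by rw [real_inner_self_eq_norm_sq, he]; norm_num
  set p : Euc n := (4 / 3 : ℝ) • f + (5 / 6 : ℝ) • e with hp
  have hy : yc e p = 5 / 6 := by
    unfold yc
    rw [hp, inner_add_left, real_inner_smul_left, real_inner_smul_left, hef, hee]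
    norm_num
  have hr : rc e p = 16 / 9 := by
    rw [hp, rc_add_smul_e he]
    unfold rc
    rw [norm_smul, hf, real_inner_smul_left, hef]
    norm_num
  have hw : w (16 / 9) = 1 / 3 := by
    unfold w
    rw [show (1 : ℝ) - 16 / 9 / 2 = (1 / 3) ^ 2 by norm_num]
    exact Real.sqrt_sq (by norm_num)
  refine ⟨p, ⟨?_, ?_, ?_⟩, ?_, ?_, ?_⟩
  · rw [hr]; norm_num
  · rw [hr, hy, q_of_ge (by norm_num), hw]; norm_num
  · rw [hr, hy, hw]; norm_num
  · rw [hr]; norm_num
  · rw [hy]; norm_num
  · rw [hy]; norm_num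

theorem pocket_dark {e : Euc n} (he : ‖e‖ = 1) {P : Euc n} (hP : P ∈ Dom e)
    (hy : yc e P ≤ 0) (t : ℝ) : Disjoint (front (Dom e) P t) (Pocket e) := by
  rw [Set.disjoint_left]
  rintro x ⟨v, -, hx⟩
  refine good_photon he hx (Or.inr ⟨by linarith, ?_⟩)
  rcases hy.lt_or_eq with h | h
  · exact Or.inr h
  · left
    have h2 := hP.2.1
    rw [h] at h2
    by_contra hcon
    have := q_pos (not_lt.1 hcon)
    linarith

theorem main (n : ℕ) (hn : 2 ≤ n) : ∃ Ω : Set (Euc n), IsSmoothDomain Ω ∧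
    ∃ U V : Set (Euc n), IsOpen U ∧ U.Nonempty ∧ U ⊆ Ω ∧ IsOpen V ∧ V.Nonempty ∧ V ⊆ Ω ∧
      ∀ P ∈ Ω, (∀ t : ℝ, Disjoint (front Ω P t) U) ∨ (∀ t : ℝ, Disjoint (front Ω P t) V) := by
  set e : Euc n := EuclideanSpace.single ⟨0, by omega⟩ 1 with hee
  set f : Euc n := EuclideanSpace.single ⟨1, by omega⟩ 1 with hff
  have he : ‖e‖ = 1 := by rw [hee]; simp
  have hf : ‖f‖ = 1 := by rw [hff]; simp
  have hef : ⟪f, e⟫ = 0 := by
    rw [hff, hee, EuclideanSpace.inner_single_left]
    simp
  have he' : ‖-e‖ = 1 := by rw [norm_neg, he]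
  refine ⟨Dom e, isSmoothDomain_dom he, Pocket e, Pocket (-e), isOpen_pocket e,
    pocket_nonempty he hf hef, fun p hp => hp.1, isOpen_pocket _,
    pocket_nonempty he' hf (by rw [inner_neg_right, hef, neg_zero]), ?_, ?_⟩
  · intro p hp
    have := hp.1
    rwa [dom_neg] at this
  · intro P hP
    rcases le_total (yc e P) 0 with h | h
    · left
      exact pocket_dark he hP h
    · right
      intro t
      have := pocket_dark he' (P := P) (by rw [dom_neg]; exact hP) (by rw [yc_neg]; linarith) t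
      rwa [dom_neg] at this

end Pool.Agent.K6.H41.Trap
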